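import Pool.Agent.Helper17.LR.Rt
import Pool.Agent.Helper24.CR.Fa

/-!
# pi and the Gamma values (MP_274814_nt): final assembly for all levels, exact degrees

Input: `hall : ∀ q > 2, HasInd q (φ (q) / 2)` (project ALLQ).
-/

set_option autoImplicit false

namespace Pool.Agent.Helper46.LP

open Set Module Pool.Agent.Helper24.LU Pool.Agent.Helper24.GammaTr Pool.Agent.Helper24.LRDefs
open Pool.Agent.Helper17.LR Pool.Agent.Helper24.CR
open Pool.Agent.Helper24.GammaDist (IsOddDist)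

/-- The field generated by `π` and all Gamma values of level `q` has degree at most
`1 + φ(q) / 2`. -/
theorem Fall_le (q : ℕ) (hq : 2 < q) :
    Algebra.trdeg ℚ (Fall q) ≤ ((1 + q.totient / 2 : ℕ) : Cardinal) := by
  classical
  have : NeZero q := ⟨by omega⟩
  obtain ⟨b, -, -, hspan, hli⟩ := exists_linearIndepOn_extension
    (linearIndepOn_empty ℚ (hv q)) (empty_subset (univ : Set (ZMod q)))
  have hb0 : ∀ x ∈ b, x ≠ 0 := ne_zero_of_lin (hv_zero q) hli
  have : Fintype b := Fintype.ofFinite b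
  have hcard : Fintype.card b ≤ q.totient / 2 := by
    have hfin : FiniteDimensional ℚ (Submodule.span ℚ (range (hv q))) :=
      FiniteDimensional.span_of_finite ℚ (Set.finite_range _)
    have h5 := finrank_span_eq_card hli
    rw [← h5]
    refine (Submodule.finrank_mono (Submodule.span_mono ?_)).trans (rank_OD q hq (hv q) (OD_hv q))
    rintro _ ⟨a, rfl⟩
    exact ⟨a, rfl⟩
  set T : Set ℂ := insert (Real.pi : ℂ) (Rz q '' b) with hT
  set K := IntermediateField.adjoin ℚ T with hK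
  have hR : ∀ a : ZMod q, a ≠ 0 → IsAlgebraic K (Rz q a) := by
    intro a ha
    refine alg_of_span q b a ha hb0 (hspan ⟨a, mem_univ a, rfl⟩) K ?_
    intro c hc
    exact isAlg_of_mem K (IntermediateField.subset_adjoin ℚ _ (Or.inr ⟨c, hc, rfl⟩))
  have hR' : ∀ a : ℕ, 1 ≤ a → a < q → IsAlgebraic K ((Rr q a : ℝ) : ℂ) := by
    intro a h1 h2
    have h3 := hR (a : ZMod q) (by
      intro h3
      rw [ZMod.natCast_eq_zero_iff] at h3
      exact absurd (Nat.le_of_dvd h1 h3) (by omega))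
    unfold Rz at h3
    rwa [ZMod.val_cast_of_lt h2] at h3
  have hpi : IsAlgebraic K (Real.pi : ℂ) :=
    isAlg_of_mem K (IntermediateField.subset_adjoin ℚ _ (Or.inl rfl))
  have hle : Fall q ≤ (algebraicClosure K ℂ).restrictScalars ℚ := by
    unfold Fall
    rw [IntermediateField.adjoin_le_iff]
    rintro z (hz | ⟨a, ha1, ha2, rfl⟩)
    · rw [Set.mem_singleton_iff] at hz
      rw [hz]
      change _ ∈ IntermediateField.restrictScalars ℚ _
      rw [IntermediateField.mem_restrictScalars, mem_algebraicClosure_iff]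
      exact hpi
    · change _ ∈ IntermediateField.restrictScalars ℚ _
      rw [IntermediateField.mem_restrictScalars, mem_algebraicClosure_iff]
      have h1 := gam_alg2 K q a ha1 (by omega) hpi (hR' a ha1 (by omega))
      have h2 : ((Real.Gamma ((a : ℝ) / q) : ℝ) : ℂ) = Complex.Gamma ((a : ℂ) / q) := by
        rw [← Complex.Gamma_ofReal]
        push_cast
        rfl
      rw [h2] at h1
      exact h1
  have h1 := trdeg_le_of_alg (Fall q) T (fun z hz => by
    have := hle hz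
    rwa [IntermediateField.mem_restrictScalars, mem_algebraicClosure_iff] at this)
  refine h1.trans ((Cardinal.mk_insert_le).trans ?_)
  have h2 : Cardinal.mk (Rz q '' b) ≤ ((q.totient / 2 : ℕ) : Cardinal) := by
    refine Cardinal.mk_image_le.trans ?_
    rw [Cardinal.mk_fintype, Nat.cast_le]
    exact hcard
  push_cast
  rw [add_comm]
  gcongr

theorem Fall_ge (q : ℕ) (h : HasInd q (q.totient / 2)) :
    ((q.totient / 2 : ℕ) : Cardinal) ≤ Algebra.trdeg ℚ (Fall q) :=
  h.trdeg_le (Fall q) (fun a h1 h2 => Rr_alg_of_mem (Fall q) q a h1 h2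
    (IntermediateField.subset_adjoin ℚ _ (Or.inl rfl))
    (IntermediateField.subset_adjoin ℚ _ (Or.inr ⟨a, h1, by omega, rfl⟩)))

/-- If `π` is not algebraic over the ratios of level `q` then a family of Gamma values is independent
together with `π` exactly if the ratios are independent. -/
theorem indep_iff (q : ℕ) (hp : ¬ PA q) (S : Finset ℕ) (hS : ∀ a ∈ S, 1 ≤ a ∧ a < q) :
    AlgebraicIndependent ℚ (pg q S) ↔ AlgebraicIndependent ℚ (fun a : S => Rr q a) := by
  have e : pg q S = gf q (fun a : S => (a : ℕ)) := by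
    funext o
    cases o <;> rfl
  rw [e, gf_iff_rf q (fun a : S => (a : ℕ)) (fun a => hS a a.2)]
  constructor
  · intro h1
    have h2 := h1.comp some (Option.some_injective _)
    exact real_iff.1 h2
  · intro h1
    rw [rf_iff q _ (real_iff.2 h1)]
    intro hc
    apply hp
    unfold PA
    refine cl_trans ?_ hc
    rintro _ ⟨a, rfl⟩
    exact isAlgebraic_algebraMap (⟨((Rr q a : ℝ) : ℂ), Algebra.subset_adjoin
      ⟨⟨(a : ℕ), hS a a.2⟩, rfl⟩⟩ : Algebra.adjoin ℚ
        (range fun a : {a : ℕ // 1 ≤ a ∧ a < q} => ((Rr q a : ℝ) : ℂ)))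

/-- The same with the standard relations. -/
theorem indep_iff_dist (q : ℕ) (hq : 2 < q) (h : HasInd q (q.totient / 2)) (hp : ¬ PA q)
    (S : Finset ℕ) (hS : ∀ a ∈ S, 1 ≤ a ∧ a < q) :
    AlgebraicIndependent ℚ (pg q S) ↔
      ∀ m : ℕ → ℤ, (∀ f : ℚ → ℝ, IsOddDist f → ∑ a ∈ S, (m a : ℝ) * f ((a : ℚ) / q) = 0) →
        ∀ a ∈ S, m a = 0 := by
  rw [indep_iff q hp S hS, ai_iff q hq h S hS]
  refine forall_congr' fun m => ?_
  rw [prod_alg_iff q S hS m, class_iff q hq h S hS m]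

/-- **Final assembly.** -/
theorem main (hall : ∀ q : ℕ, 2 < q → HasInd q (q.totient / 2)) :
    (∃ N : ℕ, N ≠ 1 ∧ N ≠ 2 ∧
      (∀ q : ℕ, 2 < q → ¬ N ∣ q →
        Algebra.trdeg ℚ (Fall q) = ((1 + q.totient / 2 : ℕ) : Cardinal) ∧
        Algebra.trdeg ℚ (F q) = ((1 + gd q : ℕ) : Cardinal) ∧
        ∀ S : Finset ℕ, (∀ a ∈ S, 1 ≤ a ∧ a < q) → (AlgebraicIndependent ℚ (pg q S) ↔
          ∀ m : ℕ → ℤ, (∀ f : ℚ → ℝ, IsOddDist f → ∑ a ∈ S, (m a : ℝ) * f ((a : ℚ) / q) = 0) →
            ∀ a ∈ S, m a = 0)) ∧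
      (∀ q : ℕ, 2 < q → N ∣ q →
        Algebra.trdeg ℚ (Fall q) = ((q.totient / 2 : ℕ) : Cardinal)) ∧
      (∀ q : ℕ, 2 < q →
        (((1 + q.totient / 2 : ℕ) : Cardinal) ≤ Algebra.trdeg ℚ (F q) ↔ ¬ N ∣ q ∧ HP q))) ∧
    (∀ x y : ℚ, 0 < x → x < y → y < 1 / 2 → ¬ (x = 1 / 6 ∧ y = 1 / 3) →
      AlgebraicIndependent ℚ ![Real.pi, Real.Gamma (x : ℝ)] ∨
        AlgebraicIndependent ℚ ![Real.pi, Real.Gamma (y : ℝ)]) := by
  refine ⟨?_, fun x y h1 h2 h3 h4 => one_exception hall x y h1 h2 h3 h4⟩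
  obtain ⟨f, h1, h2, h⟩ := exists_level hall
  have hF : ∀ q : ℕ, 2 < q →
      (1 + ((q.totient / 2 : ℕ) : Cardinal) ≤ Algebra.trdeg ℚ (Fall q) ↔ ¬ f ∣ q) := by
    intro q hq
    have h3 := full_iff q hq (hall q hq)
    push_cast at h3
    rw [h3, h q (by omega)]
  refine ⟨f, h1, h2, fun q hq hf => ⟨?_, ?_, ?_⟩, fun q hq hf => ?_, fun q hq => ?_⟩
  · exact le_antisymm (Fall_le q hq) (full_of q hq (hall q hq)
      (fun hp => hf ((h q (by omega)).1 hp)))
  · exact trdeg_F_eq q hq (hall q hq) (fun hp => hf ((h q (by omega)).1 hp))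
  · intro S hS
    exact indep_iff_dist q hq (hall q hq) (fun hp => hf ((h q (by omega)).1 hp)) S hS
  · exact le_antisymm (le_of_PA q hq ((h q (by omega)).2 hf)) (Fall_ge q (hall q hq))
  · have h3 := Pool.Agent.Helper24.CR.literal_iff _ hF q hq
    push_cast
    exact h3

end Pool.Agent.Helper46.LP
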