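import Pool.Agent.Helper17.LR.Cv
import Pool.Agent.Helper24.CR.Li

/-!
# pi and the ratios of Gamma values (MP_274814_nt): final assembly for all levels

Input: `hall : ∀ q > 2, HasInd q (φ (q) / 2)` (project ALLQ).
-/

set_option autoImplicit false

namespace Pool.Agent.Helper46.LP

open Set Module Pool.Agent.Helper24.LU Pool.Agent.Helper24.GammaTr Pool.Agent.Helper24.LRDefs
open Pool.Agent.Helper17.LR

/-- **Final assembly.**  There is at most one level `f` such that the inequality of the problem and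
the independence of `π` can fail only at the multiples of `f`. -/
theorem final (hall : ∀ q : ℕ, 2 < q → HasInd q (q.totient / 2)) :
    ∃ f : ℕ, f ≠ 1 ∧ f ≠ 2 ∧
      (∀ q : ℕ, 2 < q →
        (1 + ((q.totient / 2 : ℕ) : Cardinal) ≤ Algebra.trdeg ℚ (F q) ↔ ¬ f ∣ q ∧ HP q)) ∧
      (∀ q : ℕ, 2 < q →
        (1 + ((q.totient / 2 : ℕ) : Cardinal) ≤ Algebra.trdeg ℚ (Fall q) ↔ ¬ f ∣ q)) ∧
      (∀ q : ℕ, 2 < q → ¬ f ∣ q → ∀ S : Finset ℕ, (∀ a ∈ S, 1 ≤ a ∧ a < q) →
        LinearIndependent ℚ (fun (a : S) (u : {u : ℕ // u.Coprime q}) =>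
          Int.fract (((u : ℕ) : ℚ) * ((a : ℕ) : ℚ) / q) - 1 / 2) →
        AlgebraicIndependent ℚ (pg q S)) := by
  obtain ⟨f, h1, h2, h⟩ := exists_level hall
  have hF : ∀ q : ℕ, 2 < q →
      (1 + ((q.totient / 2 : ℕ) : Cardinal) ≤ Algebra.trdeg ℚ (Fall q) ↔ ¬ f ∣ q) := by
    intro q hq
    have h3 := full_iff q hq (hall q hq)
    push_cast at h3
    rw [h3, h q (by omega)]
  refine ⟨f, h1, h2, fun q hq => Pool.Agent.Helper24.CR.literal_iff _ hF q hq, hF, ?_⟩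
  intro q hq hf S hS hli
  exact pg_of q hq (hall q hq) (fun hp => hf ((h q (by omega)).1 hp)) S hS hli

/-- The inequality holds at all prime powers, except possibly the powers of one prime. -/
theorem primes (hall : ∀ q : ℕ, 2 < q → HasInd q (q.totient / 2)) :
    ∃ p₀ : ℕ, ∀ p k : ℕ, p.Prime → p ≠ p₀ → 2 < p ^ k →
      1 + (((p ^ k).totient / 2 : ℕ) : Cardinal) ≤ Algebra.trdeg ℚ (F (p ^ k)) := by
  classical
  obtain ⟨f, h1, -, h3, -, -⟩ := final hall
  refine ⟨f.minFac, fun p k hp hne hk => ?_⟩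
  rw [h3 _ hk]
  refine ⟨fun hd => ?_, HP_one p k hp⟩
  apply hne
  obtain ⟨j, -, rfl⟩ := (Nat.dvd_prime_pow hp).1 hd
  have hj : j ≠ 0 := by
    rintro rfl
    exact h1 (pow_zero p)
  rw [Nat.Prime.pow_minFac hp hj]

end Pool.Agent.Helper46.LP
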